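import Pool.Agent.R601.BG.Sg

/-!
# The multiplication graph of a group of cardinality at most the continuum
-/

namespace R601.BG

open Cardinal Set

universe u

section Group

variable {G : Type u} [Group G]

theorem mk_closure_le (s : Set G) : #(Subgroup.closure s) ≤ max #s ℵ₀ := by
  rw [FreeGroup.closure_eq_range]
  have h1 : #((FreeGroup.lift ((↑) : s → G)).range) ≤ #(FreeGroup s) :=
    mk_range_le (f := FreeGroup.lift ((↑) : s → G))
  refine h1.trans ?_
  rcases isEmpty_or_nonempty s with hs | hs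
  · have : #(FreeGroup s) ≤ ℵ₀ := by
      have : Countable (FreeGroup s) := inferInstance
      exact mk_le_aleph0
    exact this.trans (le_max_right _ _)
  · exact (Cardinal.mk_freeGroup (α := s)).le

variable [LinearOrder G]

/-- The subgroup generated by the elements up to `a`. -/
def Hp (a : G) : Subgroup G := Subgroup.closure (Set.Iic a)

/-- The subgroup generated by the elements before `a`. -/
def Hm (a : G) : Subgroup G := Subgroup.closure (Set.Iio a)

theorem self_mem_Hp (a : G) : a ∈ Hp a := Subgroup.subset_closure (Set.mem_Iic.2 le_rfl)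

theorem Hp_mono {a b : G} (h : a ≤ b) : Hp a ≤ Hp b :=
  Subgroup.closure_mono (Set.Iic_subset_Iic.2 h)

theorem Hp_le_Hm {a b : G} (h : a < b) : Hp a ≤ Hm b :=
  Subgroup.closure_mono fun _ hx => lt_of_le_of_lt hx h

/-- A representative of the left coset `x (Hm a)`. -/
noncomputable def tt (a x : G) : G := Quotient.out (QuotientGroup.mk x : G ⧸ Hm a)

theorem tt_spec (a x : G) : (tt a x)⁻¹ * x ∈ Hm a := by
  rw [← QuotientGroup.eq]
  exact Quotient.out_eq _

theorem tt_eq {a x y : G} (h : x⁻¹ * y ∈ Hm a) : tt a x = tt a y := by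
  unfold tt
  rw [QuotientGroup.eq.2 h]

variable [WellFoundedLT G]

/-- The rank of an element. -/
noncomputable def rk (x : G) : G :=
  WellFounded.min (wellFounded_lt (α := G)) {a | x ∈ Hp a} ⟨x, self_mem_Hp x⟩

theorem mem_Hp_rk (x : G) : x ∈ Hp (rk x) :=
  WellFounded.min_mem (wellFounded_lt (α := G)) {a | x ∈ Hp a} ⟨x, self_mem_Hp x⟩

theorem rk_le {x a : G} (h : x ∈ Hp a) : rk x ≤ a :=
  not_lt.1 (WellFounded.not_lt_min (wellFounded_lt (α := G)) {a | x ∈ Hp a} h)

theorem rk_le_iff {x a : G} : rk x ≤ a ↔ x ∈ Hp a :=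
  ⟨fun h => Hp_mono h (mem_Hp_rk x), rk_le⟩

theorem rk_inv (x : G) : rk x⁻¹ = rk x := by
  apply le_antisymm
  · exact rk_le (inv_mem (mem_Hp_rk x))
  · refine rk_le ?_
    have := inv_mem (mem_Hp_rk x⁻¹)
    rwa [inv_inv] at this

theorem exists_lt_of_mem_Hm {a b x : G} (hb : b < a) (hx : x ∈ Hm a) : rk x < a := by
  have : ∃ c, c < a ∧ x ∈ Hp c := by
    refine Subgroup.closure_induction (p := fun x _ => ∃ c, c < a ∧ x ∈ Hp c) ?_ ?_ ?_ ?_ hx
    · intro y hy
      exact ⟨y, hy, self_mem_Hp y⟩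
    · exact ⟨b, hb, one_mem _⟩
    · rintro y z - - ⟨c, hc, hyc⟩ ⟨d, hd, hzd⟩
      exact ⟨max c d, max_lt hc hd, mul_mem (Hp_mono (le_max_left _ _) hyc)
        (Hp_mono (le_max_right _ _) hzd)⟩
    · rintro y - ⟨c, hc, hyc⟩
      exact ⟨c, hc, inv_mem hyc⟩
  obtain ⟨c, hc, hxc⟩ := this
  exact lt_of_le_of_lt (rk_le hxc) hc

theorem mem_Hm_of_rk_lt {a x : G} (h : rk x < a) : x ∈ Hm a := Hp_le_Hm h (mem_Hp_rk x)

/-- The representative attached to `x`. -/
noncomputable def t (x : G) : G := tt (rk x) x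

/-- The left derived element. -/
noncomputable def dl (x : G) : G := (t x)⁻¹ * x

/-- The right derived element. -/
noncomputable def dr (x : G) : G := x * t x⁻¹

/-- The successive approximations to the multiplication graph. -/
def Tn : ℕ → G → G → G → Prop
  | 0 => fun x y z => (rk x = rk y ∧ rk y = rk z) ∧ x * y = z
  | n + 1 => fun x y z => Tn n x y z ∨ (t x = t z ∧ Tn n (dl x) y (dl z)) ∨
      (t y⁻¹ = t z⁻¹ ∧ Tn n x (dr y) (dr z)) ∨ (t x⁻¹ = t y ∧ Tn n (dr x) (dl y) z)

theorem Tn_sound (n : ℕ) : ∀ x y z : G, Tn n x y z → x * y = z := by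
  induction n with
  | zero => rintro x y z ⟨-, h⟩; exact h
  | succ n ih =>
    rintro x y z (h | ⟨ht, h⟩ | ⟨ht, h⟩ | ⟨ht, h⟩)
    · exact ih x y z h
    · have := ih _ _ _ h
      unfold dl at this
      rw [ht, mul_assoc] at this
      exact mul_left_cancel this
    · have := ih _ _ _ h
      unfold dr at this
      rw [ht, ← mul_assoc] at this
      exact mul_right_cancel this
    · have := ih _ _ _ h
      unfold dr dl at this
      rw [ht] at this
      rw [← this]
      group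

theorem Tn_mono {n : ℕ} {x y z : G} (h : Tn n x y z) : Tn (n + 1) x y z := Or.inl h

theorem dl_rk_lt {b x : G} (hb : b < rk x) : rk (dl x) < rk x :=
  exists_lt_of_mem_Hm hb (tt_spec _ _)

theorem dr_rk_lt {b x : G} (hb : b < rk x) : rk (dr x) < rk x := by
  refine exists_lt_of_mem_Hm hb ?_
  have := inv_mem (tt_spec (rk x⁻¹) x⁻¹)
  rw [mul_inv_rev, inv_inv, inv_inv, rk_inv] at this
  unfold dr t
  rwa [rk_inv]

theorem Tn_complete (a : G) : ∀ x y z : G, x * y = z → rk x ≤ a → rk y ≤ a → rk z ≤ a →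
    ∃ n, Tn n x y z := by
  induction a using WellFoundedLT.induction with
  | ind a ih =>
  intro x y z hxyz hx hy hz
  have hx' : x = z * y⁻¹ := by rw [← hxyz]; group
  have hy' : y = x⁻¹ * z := by rw [← hxyz]; group
  -- two of the ranks bound the third one
  have b1 : ∀ c, rk y ≤ c → rk z ≤ c → rk x ≤ c := fun c h1 h2 => by
    rw [rk_le_iff] at h1 h2 ⊢
    rw [hx']; exact mul_mem h2 (inv_mem h1)
  have b2 : ∀ c, rk x ≤ c → rk z ≤ c → rk y ≤ c := fun c h1 h2 => by
    rw [rk_le_iff] at h1 h2 ⊢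
    rw [hy']; exact mul_mem (inv_mem h1) h2
  have b3 : ∀ c, rk x ≤ c → rk y ≤ c → rk z ≤ c := fun c h1 h2 => by
    rw [rk_le_iff] at h1 h2 ⊢
    rw [← hxyz]; exact mul_mem h1 h2
  have b1' := b1 _ (le_max_left (rk y) (rk z)) (le_max_right _ _)
  have b2' := b2 _ (le_max_left (rk x) (rk z)) (le_max_right _ _)
  have b3' := b3 _ (le_max_left (rk x) (rk y)) (le_max_right _ _)
  by_cases hall : rk x = rk y ∧ rk y = rk z
  · exact ⟨0, hall, hxyz⟩
  -- exactly one rank is smaller
  have hcases : (rk y < rk x ∧ rk x = rk z) ∨ (rk x < rk y ∧ rk y = rk z) ∨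
      (rk z < rk x ∧ rk x = rk y) := by
    rcases lt_trichotomy (rk x) (rk y) with h | h | h
    · right; left
      refine ⟨h, ?_⟩
      rw [max_eq_right h.le] at b3'
      rcases le_max_iff.1 b2' with h' | h'
      · exact absurd h (not_lt.2 h')
      · exact le_antisymm h' b3'
    · right; right
      rw [← h, max_self] at b3'
      refine ⟨lt_of_le_of_ne b3' fun h' => hall ⟨h, by rw [h', h]⟩, h⟩
    · left
      refine ⟨h, ?_⟩
      rw [max_eq_left h.le] at b3'
      rcases le_max_iff.1 b1' with h' | h'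
      · exact absurd h (not_lt.2 h')
      · exact le_antisymm h' b3'
  rcases hcases with ⟨hlt, he⟩ | ⟨hlt, he⟩ | ⟨hlt, he⟩
  · -- `y` is small
    have hyH : y ∈ Hm (rk x) := mem_Hm_of_rk_lt hlt
    have ht : t x = t z := by
      unfold t
      rw [← he]
      exact tt_eq (by rw [← hy']; exact hyH)
    have hm : dl x * y = dl z := by
      unfold dl
      rw [← ht, mul_assoc, hxyz]
    have h1 := dl_rk_lt hlt
    have h2 := dl_rk_lt (x := z) (he ▸ hlt)
    rw [← he] at h2
    obtain ⟨n, hn⟩ := ih (max (rk (dl x)) (max (rk y) (rk (dl z))))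
      (lt_of_lt_of_le (max_lt h1 (max_lt hlt h2)) hx) _ _ _ hm (le_max_left _ _)
      ((le_max_left _ _).trans (le_max_right _ _)) ((le_max_right _ _).trans (le_max_right _ _))
    exact ⟨n + 1, Or.inr (Or.inl ⟨ht, hn⟩)⟩
  · -- `x` is small
    have hxH : x ∈ Hm (rk y) := mem_Hm_of_rk_lt hlt
    have ht : t y⁻¹ = t z⁻¹ := by
      unfold t
      rw [rk_inv, rk_inv, ← he]
      refine tt_eq ?_
      have : y⁻¹⁻¹ * z⁻¹ = x⁻¹ := by rw [← hxyz]; group
      rw [this]
      exact inv_mem hxH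
    have hm : x * dr y = dr z := by
      unfold dr
      rw [← ht, ← mul_assoc, hxyz]
    have h1 := dr_rk_lt hlt
    have h2 := dr_rk_lt (x := z) (he ▸ hlt)
    rw [← he] at h2
    obtain ⟨n, hn⟩ := ih (max (rk x) (max (rk (dr y)) (rk (dr z))))
      (lt_of_lt_of_le (max_lt hlt (max_lt h1 h2)) hy) _ _ _ hm (le_max_left _ _)
      ((le_max_left _ _).trans (le_max_right _ _)) ((le_max_right _ _).trans (le_max_right _ _))
    exact ⟨n + 1, Or.inr (Or.inr (Or.inl ⟨ht, hn⟩))⟩
  · -- `z` is small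
    have hzH : z ∈ Hm (rk x) := mem_Hm_of_rk_lt hlt
    have ht : t x⁻¹ = t y := by
      unfold t
      rw [rk_inv, ← he]
      refine tt_eq ?_
      rw [inv_inv, hxyz]
      exact hzH
    have hm : dr x * dl y = z := by
      unfold dr dl
      rw [ht, ← hxyz]
      group
    have h1 := dr_rk_lt hlt
    have h2 := dl_rk_lt (x := y) (he ▸ hlt)
    rw [← he] at h2
    obtain ⟨n, hn⟩ := ih (max (rk (dr x)) (max (rk (dl y)) (rk z)))
      (lt_of_lt_of_le (max_lt h1 (max_lt h2 hlt)) hx) _ _ _ hm (le_max_left _ _)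
      ((le_max_left _ _).trans (le_max_right _ _)) ((le_max_right _ _).trans (le_max_right _ _))
    exact ⟨n + 1, Or.inr (Or.inr (Or.inr ⟨ht, hn⟩))⟩

theorem Sg_Tn (e : G → ℕ → Bool) (he : Function.Injective e)
    (h0 : Sg (Tn (G := G) 0)) (n : ℕ) : Sg (Tn (G := G) n) := by
  induction n with
  | zero => exact h0
  | succ n ih =>
    refine ih.or (Sg.or ?_ (Sg.or ?_ ?_))
    · exact (Sg.eq13 e he t t).and (ih.comp dl id dl)
    · exact (Sg.eq23 e he (fun y => t y⁻¹) (fun z => t z⁻¹)).and (ih.comp id dr dr)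
    · exact (Sg.eq12 e he (fun x => t x⁻¹) t).and (ih.comp dr dl id)

theorem Sg_step (e : G → ℕ → Bool) (he : Function.Injective e)
    (h : ∀ a : G, Sg (fun x y z : Hp a => x * y = z)) : Sg (fun x y z : G => x * y = z) := by
  classical
  have h0 : Sg (Tn (G := G) 0) := by
    refine Sg.glue e he rk rk rk (fun x y z => x * y = z) fun a => ?_
    obtain ⟨B1, B2, B3, hB⟩ := h a
    refine ⟨fun x y z => ∃ m, ∀ k, ¬ (x ∈ Subtype.val '' B1 m k ∧ y ∈ Subtype.val '' B2 m k ∧
      z ∈ Subtype.val '' B3 m k), ⟨_, _, _, fun x y z => Iff.rfl⟩, fun x y z hx hy hz => ?_⟩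
    have hx' : x ∈ Hp a := hx ▸ mem_Hp_rk x
    have hy' : y ∈ Hp a := hy ▸ mem_Hp_rk y
    have hz' : z ∈ Hp a := hz ▸ mem_Hp_rk z
    have hxyz : x * y = z ↔ (⟨x, hx'⟩ : Hp a) * ⟨y, hy'⟩ = ⟨z, hz'⟩ := by
      rw [Subtype.ext_iff]
      rfl
    rw [hxyz]
    refine Iff.trans ?_ (hB ⟨x, hx'⟩ ⟨y, hy'⟩ ⟨z, hz'⟩).symm
    have key : ∀ (w : G) (hw : w ∈ Hp a) (B : Set (Hp a)),
        w ∈ Subtype.val '' B ↔ (⟨w, hw⟩ : Hp a) ∈ B := by
      intro w hw B
      constructor
      · rintro ⟨v, hv, rfl⟩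
        exact hv
      · intro hv
        exact ⟨_, hv, rfl⟩
    simp only [key x hx', key y hy', key z hz']
  have h1 : Sg (fun x y z : G => ∃ n, Tn n x y z) := Sg.iUnion (Sg_Tn e he h0)
  convert h1 using 4 with x y z
  constructor
  · intro hxyz
    exact Tn_complete (max (rk x) (max (rk y) (rk z))) x y z hxyz (le_max_left _ _)
      ((le_max_left _ _).trans (le_max_right _ _)) ((le_max_right _ _).trans (le_max_right _ _))
  · rintro ⟨n, hn⟩
    exact Tn_sound n x y z hn

end Group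

theorem Sg_countable (G : Type u) [Group G] [Countable G] : Sg (fun x y z : G => x * y = z) := by
  have : (fun x y z : G => x * y = z) = fun x y z => ∃ p : G × G,
      (x ∈ ({p.1} : Set G) ∧ y ∈ ({p.2} : Set G)) ∧ z ∈ ({p.1 * p.2} : Set G) := by
    funext x y z
    apply propext
    constructor
    · intro h
      exact ⟨(x, y), ⟨by simp, by simp⟩, by simp [h]⟩
    · rintro ⟨⟨a, b⟩, ⟨h1, h2⟩, h3⟩
      simp only [Set.mem_singleton_iff] at h1 h2 h3
      rw [h1, h2, h3]
  rw [this]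
  exact Sg.iUnion fun p => ((Sg.mem1 _).and (Sg.mem2 _)).and (Sg.mem3 _)

theorem exists_inj (G : Type u) (h : #G ≤ 𝔠) : ∃ e : G → ℕ → Bool, Function.Injective e := by
  have h2 : Cardinal.lift.{0} #G ≤ Cardinal.lift.{u} #(ℕ → Bool) := by
    simpa using h
  obtain ⟨f⟩ := Cardinal.lift_mk_le'.1 h2
  exact ⟨f, f.injective⟩

/-- **Main theorem**: the multiplication graph of every group of cardinality at most the
continuum is a countable union of complements of countable unions of rectangles. -/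
theorem Sg_mul (κ : Cardinal.{u}) : ∀ (G : Type u) [Group G], #G = κ → κ ≤ 𝔠 →
    Sg (fun x y z : G => x * y = z) := by
  induction κ using WellFoundedLT.induction with
  | ind κ ih =>
  intro G _ hG hκ
  rcases le_or_gt κ ℵ₀ with h | h
  · have : Countable G := by rw [← mk_le_aleph0_iff, hG]; exact h
    exact Sg_countable G
  · obtain ⟨e, he⟩ := exists_inj G (hG ▸ hκ)
    obtain ⟨_, _, hord⟩ := exists_ord_eq_type_lt G
    refine Sg_step e he fun a => ?_
    have h1 : #(Hp a) < κ := by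
      refine lt_of_le_of_lt (mk_closure_le _) ?_
      refine max_lt ?_ h
      have h2 : #(Set.Iio a) < κ := hG ▸ mk_Iio_lt a hord
      have h3 : (Set.Iic a) = insert a (Set.Iio a) := by
        ext y; simp [le_iff_eq_or_lt]
      rw [h3]
      refine lt_of_le_of_lt (mk_insert_le) ?_
      exact add_lt_of_lt h.le h2 (one_lt_aleph0.trans h)
    exact ih _ h1 (Hp a) rfl (h1.le.trans hκ)

end R601.BG
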