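import Mathlib

/-!
# Ternary relations of class two over a countable family of sets

`Sg R`: the ternary relation `R` is a countable union of complements of countable unions of
rectangles.  We show that the multiplication graph of every group of cardinality at most the
continuum is of this form (in ZFC).
-/

namespace R601.BG

open Cardinal Set

universe u

/-- `R` is a countable union of complements of countable unions of rectangles. -/
def Sg {X Y Z : Type*} (R : X → Y → Z → Prop) : Prop :=
  ∃ (B1 : ℕ → ℕ → Set X) (B2 : ℕ → ℕ → Set Y) (B3 : ℕ → ℕ → Set Z),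
    ∀ x y z, R x y z ↔ ∃ m, ∀ k, ¬ (x ∈ B1 m k ∧ y ∈ B2 m k ∧ z ∈ B3 m k)

section closure

variable {X Y Z X' Y' Z' : Type*}

/-- Extension of a doubly indexed family of sets along encodings of the index types. -/
def extend {I J W : Type*} [Encodable I] [Encodable J] (B : I → J → Set W) (m k : ℕ) : Set W :=
  match (Encodable.decode m : Option I) with
  | none => Set.univ
  | some i => match (Encodable.decode k : Option J) with
    | none => ∅
    | some j => B i j

theorem extend_none {I J W : Type*} [Encodable I] [Encodable J] (B : I → J → Set W) (m k : ℕ)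
    (hm : (Encodable.decode m : Option I) = none) : extend B m k = Set.univ := by
  simp [extend, hm]

theorem extend_some_none {I J W : Type*} [Encodable I] [Encodable J] (B : I → J → Set W)
    (m k : ℕ) (i : I) (hm : (Encodable.decode m : Option I) = some i)
    (hk : (Encodable.decode k : Option J) = none) : extend B m k = ∅ := by
  simp [extend, hm, hk]

theorem extend_some {I J W : Type*} [Encodable I] [Encodable J] (B : I → J → Set W)
    (m k : ℕ) (i : I) (j : J) (hm : (Encodable.decode m : Option I) = some i)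
    (hk : (Encodable.decode k : Option J) = some j) : extend B m k = B i j := by
  simp [extend, hm, hk]

/-- Countable index types may be used. -/
theorem Sg.of_idx {I J : Type*} [Countable I] [Countable J] {R : X → Y → Z → Prop}
    (B1 : I → J → Set X) (B2 : I → J → Set Y) (B3 : I → J → Set Z)
    (h : ∀ x y z, R x y z ↔ ∃ i, ∀ j, ¬ (x ∈ B1 i j ∧ y ∈ B2 i j ∧ z ∈ B3 i j)) : Sg R := by
  classical
  have := Encodable.ofCountable I
  have := Encodable.ofCountable J
  refine ⟨extend B1, extend B2, extend B3, fun x y z => ?_⟩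
  rw [h x y z]
  constructor
  · rintro ⟨i, hi⟩
    refine ⟨Encodable.encode i, fun k => ?_⟩
    have hm : (Encodable.decode (Encodable.encode i) : Option I) = some i := by simp
    cases hk : (Encodable.decode k : Option J) with
    | none => rw [extend_some_none B1 _ k i hm hk]; simp
    | some j =>
      rw [extend_some B1 _ k i j hm hk, extend_some B2 _ k i j hm hk,
        extend_some B3 _ k i j hm hk]
      exact hi j
  · rintro ⟨m, hm⟩
    cases hi : (Encodable.decode m : Option I) with
    | none =>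
      exfalso
      apply hm 0
      rw [extend_none B1 m 0 hi, extend_none B2 m 0 hi, extend_none B3 m 0 hi]
      simp
    | some i =>
      refine ⟨i, fun j => ?_⟩
      have hk : (Encodable.decode (Encodable.encode j) : Option J) = some j := by simp
      have := hm (Encodable.encode j)
      rwa [extend_some B1 _ _ i j hi hk, extend_some B2 _ _ i j hi hk,
        extend_some B3 _ _ i j hi hk] at this

theorem Sg.iUnion {I : Type*} [Countable I] {R : I → X → Y → Z → Prop} (h : ∀ i, Sg (R i)) :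
    Sg (fun x y z => ∃ i, R i x y z) := by
  choose B1 B2 B3 hB using h
  refine Sg.of_idx (I := I × ℕ) (J := ℕ) (fun p k => B1 p.1 p.2 k) (fun p k => B2 p.1 p.2 k)
    (fun p k => B3 p.1 p.2 k) fun x y z => ?_
  constructor
  · rintro ⟨i, hi⟩
    obtain ⟨m, hm⟩ := (hB i x y z).1 hi
    exact ⟨(i, m), hm⟩
  · rintro ⟨⟨i, m⟩, hm⟩
    exact ⟨i, (hB i x y z).2 ⟨m, hm⟩⟩

theorem Sg.or {R S : X → Y → Z → Prop} (hR : Sg R) (hS : Sg S) :
    Sg (fun x y z => R x y z ∨ S x y z) := by
  have : (fun x y z => R x y z ∨ S x y z) =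
      fun x y z => ∃ b : Bool, (fun b : Bool => if b then R else S) b x y z := by
    funext x y z
    apply propext
    constructor
    · rintro (h | h)
      · exact ⟨true, by simpa using h⟩
      · exact ⟨false, by simpa using h⟩
    · rintro ⟨b, hb⟩
      cases b
      · right; simpa using hb
      · left; simpa using hb
  rw [this]
  refine Sg.iUnion fun b => ?_
  cases b
  · simpa using hS
  · simpa using hR

theorem Sg.and {R S : X → Y → Z → Prop} (hR : Sg R) (hS : Sg S) :
    Sg (fun x y z => R x y z ∧ S x y z) := by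
  obtain ⟨B1, B2, B3, hB⟩ := hR
  obtain ⟨C1, C2, C3, hC⟩ := hS
  refine Sg.of_idx (I := ℕ × ℕ) (J := ℕ ⊕ ℕ)
    (fun p k => Sum.elim (B1 p.1) (C1 p.2) k) (fun p k => Sum.elim (B2 p.1) (C2 p.2) k)
    (fun p k => Sum.elim (B3 p.1) (C3 p.2) k) fun x y z => ?_
  rw [hB, hC]
  constructor
  · rintro ⟨⟨m, hm⟩, ⟨n, hn⟩⟩
    refine ⟨(m, n), fun k => ?_⟩
    rcases k with k | k
    · exact hm k
    · exact hn k
  · rintro ⟨⟨m, n⟩, h⟩
    exact ⟨⟨m, fun k => h (Sum.inl k)⟩, ⟨n, fun k => h (Sum.inr k)⟩⟩

theorem Sg.comp {R : X → Y → Z → Prop} (hR : Sg R) (f : X' → X) (g : Y' → Y) (h : Z' → Z) :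
    Sg (fun x y z => R (f x) (g y) (h z)) := by
  obtain ⟨B1, B2, B3, hB⟩ := hR
  exact ⟨fun m k => f ⁻¹' B1 m k, fun m k => g ⁻¹' B2 m k, fun m k => h ⁻¹' B3 m k,
    fun x y z => hB _ _ _⟩

theorem Sg.mem1 (U : Set X) : Sg (fun (x : X) (_ : Y) (_ : Z) => x ∈ U) :=
  ⟨fun _ _ => Uᶜ, fun _ _ => Set.univ, fun _ _ => Set.univ, fun x y z => by simp⟩

theorem Sg.mem2 (U : Set Y) : Sg (fun (_ : X) (y : Y) (_ : Z) => y ∈ U) :=
  ⟨fun _ _ => Set.univ, fun _ _ => Uᶜ, fun _ _ => Set.univ, fun x y z => by simp⟩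

theorem Sg.mem3 (U : Set Z) : Sg (fun (_ : X) (_ : Y) (z : Z) => z ∈ U) :=
  ⟨fun _ _ => Set.univ, fun _ _ => Set.univ, fun _ _ => Uᶜ, fun x y z => by simp⟩

theorem eq_iff_bits (a b : ℕ → Bool) : a = b ↔ ∀ p : ℕ × Bool, ¬ (a p.1 = p.2 ∧ b p.1 = !p.2) := by
  constructor
  · rintro rfl p ⟨h1, h2⟩
    rw [h1] at h2
    cases hp : p.2 <;> simp [hp] at h2
  · intro h
    funext n
    by_contra hn
    have := h (n, a n)
    simp only [true_and] at this
    cases ha : a n <;> cases hb : b n <;> simp_all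

/-- Two elements of a set of cardinality at most the continuum are equal: a condition on the
first and the second coordinate. -/
theorem Sg.eq12 {W : Type*} (e : W → ℕ → Bool) (he : Function.Injective e) (f : X → W)
    (g : Y → W) : Sg (fun (x : X) (y : Y) (_ : Z) => f x = g y) := by
  refine Sg.of_idx (I := Unit) (J := ℕ × Bool) (fun _ p => {x | e (f x) p.1 = p.2})
    (fun _ p => {y | e (g y) p.1 = !p.2}) (fun _ _ => Set.univ) fun x y z => ?_
  rw [← he.eq_iff, eq_iff_bits]
  simp

theorem Sg.eq13 {W : Type*} (e : W → ℕ → Bool) (he : Function.Injective e) (f : X → W)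
    (g : Z → W) : Sg (fun (x : X) (_ : Y) (z : Z) => f x = g z) := by
  refine Sg.of_idx (I := Unit) (J := ℕ × Bool) (fun _ p => {x | e (f x) p.1 = p.2})
    (fun _ _ => Set.univ) (fun _ p => {z | e (g z) p.1 = !p.2}) fun x y z => ?_
  rw [← he.eq_iff, eq_iff_bits]
  simp

theorem Sg.eq23 {W : Type*} (e : W → ℕ → Bool) (he : Function.Injective e) (f : Y → W)
    (g : Z → W) : Sg (fun (_ : X) (y : Y) (z : Z) => f y = g z) := by
  refine Sg.of_idx (I := Unit) (J := ℕ × Bool) (fun _ _ => Set.univ)
    (fun _ p => {y | e (f y) p.1 = p.2}) (fun _ p => {z | e (g z) p.1 = !p.2}) fun x y z => ?_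
  rw [← he.eq_iff, eq_iff_bits]
  simp

/-- Gluing relations along a partition into at most continuum many pieces. -/
theorem Sg.glue {W : Type*} (e : W → ℕ → Bool) (he : Function.Injective e)
    (r1 : X → W) (r2 : Y → W) (r3 : Z → W) (R : X → Y → Z → Prop)
    (h : ∀ w : W, ∃ S : X → Y → Z → Prop, Sg S ∧
      ∀ x y z, r1 x = w → r2 y = w → r3 z = w → (S x y z ↔ R x y z)) :
    Sg (fun x y z => (r1 x = r2 y ∧ r2 y = r3 z) ∧ R x y z) := by
  choose S hS hR using h
  choose B1 B2 B3 hB using hS
  have h1 : Sg (fun (x : X) (y : Y) (z : Z) =>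
      ∃ m, ∀ k, ¬ (x ∈ {x | x ∈ B1 (r1 x) m k} ∧ y ∈ {y | y ∈ B2 (r2 y) m k} ∧
        z ∈ {z | z ∈ B3 (r3 z) m k})) :=
    ⟨fun m k => {x | x ∈ B1 (r1 x) m k}, fun m k => {y | y ∈ B2 (r2 y) m k},
      fun m k => {z | z ∈ B3 (r3 z) m k}, fun x y z => Iff.rfl⟩
  have h2 := ((Sg.eq12 (Z := Z) e he r1 r2).and (Sg.eq23 (X := X) e he r2 r3)).and h1
  convert h2 using 4 with x y z
  apply and_congr_right
  rintro ⟨h12, h23⟩
  rw [← hR (r1 x) x y z rfl h12.symm (by rw [h12, h23]), hB (r1 x) x y z]
  simp only [Set.mem_ofPred_eq, ← h12, ← h23]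

end closure

end R601.BG
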